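import Pool.Agent.Q155.BZ.Stm

/-! # Job BZ-11 of project BZ (helper155), by helper149 -/

set_option autoImplicit false

open Complex Set Filter Asymptotics MeasureTheory Topology

namespace Pool.Agent.Q149.BZ

open Pool.Agent.Q155.BZ

/-- the continuation is continuous on the half line -/
theorem contF {a θ : ℝ} {F : ℂ → ℂ} (hF : Cont a θ F) :
    ContinuousOn (fun t : ℝ => F (1 + (t : ℂ) * I)) (Ioi 0) := by
  have h1 : ContinuousOn F {s : ℂ | s ≠ 1 ∧ s ≠ 2} := hF.1.continuousOn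
  refine h1.comp (by fun_prop) fun t ht => ?_
  have ht' : t ≠ 0 := (Set.mem_Ioi.1 ht).ne'
  constructor
  · intro h
    have := congrArg Complex.im h
    simp at this
    exact ht' this
  · intro h
    have := congrArg Complex.re h
    simp at this

/-- the bound of the Mellin transform by the continuation -/
theorem boundM (h1 : S_VAL) (h3 : S_GAM) {a θ : ℝ} (ha : 0 < a) (hθ : 0 < θ) {F : ℂ → ℂ}
    (hF : Cont a θ F) : ∃ A B : ℝ, 0 ≤ A ∧ 0 ≤ B ∧ ∀ t : ℝ, 1 ≤ t →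
    ‖mellin (fun x : ℝ => f a θ (x : ℂ)) (1 + (t : ℂ) * I)‖ * Real.exp (Real.pi / 2 * t) ≤
      A * Real.sqrt t * (‖F (1 + (t : ℂ) * I)‖ + B) := by
  obtain ⟨C, hC⟩ := h3
  refine ⟨|C|, 1 / θ + |b1 a θ|, abs_nonneg _, by positivity, fun t ht => ?_⟩
  obtain ⟨g1, g2, g3⟩ := hC t ht
  have hs1 : (1 + (t : ℂ) * I) ≠ 1 := by
    intro h
    have := congrArg Complex.im h
    simp at this
    linarith
  have hs2 : (1 + (t : ℂ) * I) ≠ 2 := by
    intro h
    have := congrArg Complex.re h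
    simp at this
  have hv := h1 a θ ha hθ F hF (1 + (t : ℂ) * I) (by simp) hs1 hs2
  have e1 : (1 + (t : ℂ) * I) - 2 = -1 + (t : ℂ) * I := by ring
  have e2 : (1 + (t : ℂ) * I) - 1 = (t : ℂ) * I := by ring
  rw [e1, e2] at hv
  set E : ℝ := Real.exp (-(Real.pi * t / 2)) with hE
  have hCC : C ≤ |C| := le_abs_self C
  have hst : 0 ≤ Real.sqrt t := Real.sqrt_nonneg t
  have hE0 : 0 < E := Real.exp_pos _
  have k1 : ‖Gamma (1 + (t : ℂ) * I)‖ ≤ |C| * Real.sqrt t * E := g1.trans (by gcongr)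
  have k2 : ‖Gamma ((t : ℂ) * I)‖ ≤ |C| * Real.sqrt t * E := g2.trans (by gcongr)
  have k3 : ‖Gamma (-1 + (t : ℂ) * I)‖ ≤ |C| * Real.sqrt t * E := g3.trans (by gcongr)
  have hM : ‖mellin (fun x : ℝ => f a θ (x : ℂ)) (1 + (t : ℂ) * I)‖ ≤
      (|C| * Real.sqrt t * E) * (‖F (1 + (t : ℂ) * I)‖ + (1 / θ + |b1 a θ|)) := by
    rw [hv]
    calc _ ≤ ‖Gamma (1 + (t : ℂ) * I)‖ * ‖F (1 + (t : ℂ) * I)‖ +
          (1 / θ) * ‖Gamma (-1 + (t : ℂ) * I)‖ + |b1 a θ| * ‖Gamma ((t : ℂ) * I)‖ := by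
          refine (norm_sub_le _ _).trans ?_
          refine add_le_add ((norm_sub_le _ _).trans ?_) ?_
          · rw [norm_mul, norm_mul, Complex.norm_real, Real.norm_eq_abs,
              abs_of_pos (by positivity : 0 < 1 / θ)]
          · rw [norm_mul, Complex.norm_real, Real.norm_eq_abs]
      _ ≤ (|C| * Real.sqrt t * E) * ‖F (1 + (t : ℂ) * I)‖ +
          (1 / θ) * (|C| * Real.sqrt t * E) + |b1 a θ| * (|C| * Real.sqrt t * E) := by
          gcongr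
      _ = _ := by ring
  have hEE : E * Real.exp (Real.pi / 2 * t) = 1 := by
    rw [hE, ← Real.exp_add]
    have : -(Real.pi * t / 2) + Real.pi / 2 * t = 0 := by ring
    rw [this, Real.exp_zero]
  calc _ ≤ ((|C| * Real.sqrt t * E) * (‖F (1 + (t : ℂ) * I)‖ + (1 / θ + |b1 a θ|))) *
        Real.exp (Real.pi / 2 * t) := by gcongr
    _ = (|C| * Real.sqrt t) * (‖F (1 + (t : ℂ) * I)‖ + (1 / θ + |b1 a θ|)) *
        (E * Real.exp (Real.pi / 2 * t)) := by ring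
    _ = _ := by rw [hEE, mul_one]

/-- the integral of the kernel -/
theorem intK {K : ℝ → ℝ} (hK : Continuous K) {FF : ℝ → ℝ}
    (hFc : ContinuousOn FF (Ioi 0)) (hF0 : ∀ t, 0 ≤ FF t) {A B C ε : ℝ} (hA : 0 ≤ A) (hB : 0 ≤ B)
    (hε : 0 ≤ ε) (hb : ∀ t, 1 ≤ t → K t ≤ A * Real.sqrt t * (FF t + B))
    (hC : ∀ T : ℝ, 1 ≤ T → ∫ t in (1 : ℝ)..T, FF t ≤ C * T ^ (1 + ε)) :
    ∃ C' : ℝ, ∀ T : ℝ, 1 ≤ T → ∫ t in (0 : ℝ)..T, K t ≤ C' * T ^ (3 / 2 + ε) := by
  refine ⟨|∫ t in (0 : ℝ)..1, K t| + A * (|C| + B), fun T hT => ?_⟩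
  have hT0 : 0 < T := by linarith
  have i1 : ∀ u v : ℝ, IntervalIntegrable K volume u v := fun u v => hK.intervalIntegrable u v
  have i2 : IntervalIntegrable FF volume 1 T := by
    refine (hFc.mono ?_).intervalIntegrable
    intro t ht
    rw [Set.uIcc_of_le hT] at ht
    exact lt_of_lt_of_le one_pos ht.1
  have i3 : IntervalIntegrable (fun t => A * Real.sqrt T * (FF t + B)) volume 1 T :=
    (i2.add intervalIntegrable_const).const_mul _
  rw [← intervalIntegral.integral_add_adjacent_intervals (i1 0 1) (i1 1 T)]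
  have e1 : ∫ t in (1 : ℝ)..T, K t ≤ ∫ t in (1 : ℝ)..T, A * Real.sqrt T * (FF t + B) := by
    refine intervalIntegral.integral_mono_on hT (i1 1 T) i3 fun t ht => ?_
    refine (hb t ht.1).trans ?_
    have := hF0 t
    gcongr
    exact ht.2
  have e2 : ∫ t in (1 : ℝ)..T, A * Real.sqrt T * (FF t + B) =
      A * Real.sqrt T * ((∫ t in (1 : ℝ)..T, FF t) + (T - 1) * B) := by
    rw [intervalIntegral.integral_const_mul,
      intervalIntegral.integral_add i2 intervalIntegrable_const, intervalIntegral.integral_const,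
      smul_eq_mul]
  have hTT : T ≤ T ^ (1 + ε) := by
    calc T = T ^ (1 : ℝ) := (Real.rpow_one T).symm
      _ ≤ _ := Real.rpow_le_rpow_of_exponent_le hT (by linarith)
  have hT1 : 1 ≤ T ^ (3 / 2 + ε) := Real.one_le_rpow hT (by linarith)
  have e3 : (∫ t in (1 : ℝ)..T, FF t) + (T - 1) * B ≤ (|C| + B) * T ^ (1 + ε) := by
    have h1 := hC T hT
    have h2 : C * T ^ (1 + ε) ≤ |C| * T ^ (1 + ε) := by gcongr; exact le_abs_self C
    have h3 : (T - 1) * B ≤ B * T ^ (1 + ε) := by nlinarith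
    linarith
  have e4 : Real.sqrt T * T ^ (1 + ε) = T ^ (3 / 2 + ε) := by
    rw [Real.sqrt_eq_rpow, ← Real.rpow_add hT0]
    congr 1
    ring
  calc (∫ t in (0 : ℝ)..1, K t) + ∫ t in (1 : ℝ)..T, K t ≤
        |∫ t in (0 : ℝ)..1, K t| * 1 + A * Real.sqrt T * ((|C| + B) * T ^ (1 + ε)) := by
        rw [mul_one]
        refine add_le_add (le_abs_self _) ?_
        rw [e2] at e1
        refine e1.trans ?_
        gcongr
    _ = |∫ t in (0 : ℝ)..1, K t| * 1 + A * (|C| + B) * (Real.sqrt T * T ^ (1 + ε)) := by ring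
    _ ≤ |∫ t in (0 : ℝ)..1, K t| * T ^ (3 / 2 + ε) + A * (|C| + B) * T ^ (3 / 2 + ε) := by
        rw [e4]; gcongr
    _ = _ := by ring

theorem dio (h1 : S_VAL) (h2 : S_INV) (h3 : S_GAM) (h4 : S_ABEL) (h5 : S_LOW) : S_DIO := by
  intro a θ ha hθ F hF ε C hε hε2 hC
  obtain ⟨A, B, hA, hB, hAB⟩ := boundM h1 h3 ha hθ hF
  obtain ⟨hMc, hinv⟩ := h2 a θ ha hθ
  obtain ⟨c, C1, hc, hlow⟩ := h5 a θ ha hθ
  set K : ℝ → ℝ := fun t => ‖mellin (fun x : ℝ => f a θ (x : ℂ)) (1 + (t : ℂ) * I)‖ *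
    Real.exp (Real.pi / 2 * t) with hK
  have hKc : Continuous K := hMc.norm.mul (by fun_prop)
  have hK0 : ∀ t, 0 ≤ K t := fun t => by simp only [hK]; positivity
  obtain ⟨C2, hC2⟩ := intK hKc (contF hF).norm (fun t => norm_nonneg _) hA hB hε hAB hC
  obtain ⟨C3, hC3⟩ := h4 K C2 (3 / 2 + ε) hKc hK0 (by linarith) hC2
  set β : ℝ := 3 / 2 + ε with hβ
  have hβ0 : 0 < β := by linarith
  refine ⟨(|C1| + |C3| * (4 * Real.pi) ^ β) / c, fun q p δ hq hδ0 hδ1 hqp => ?_⟩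
  obtain ⟨l1, l2⟩ := hlow q p δ hq hδ0 hδ1 hqp
  have hq1 : (1 : ℝ) ≤ q := by exact_mod_cast hq
  have hq0 : (0 : ℝ) < q := by linarith
  have hpi : 3 < Real.pi := Real.pi_gt_three
  have hpi0 : 0 < Real.pi := Real.pi_pos
  set z : ℂ := (δ : ℂ) + ((2 * Real.pi * q : ℝ) : ℂ) * I with hz
  have hzre : z.re = δ := by simp [hz]
  have hzim : z.im = 2 * Real.pi * q := by simp [hz]
  have hznorm : 2 * Real.pi * q ≤ ‖z‖ := by
    have := Complex.abs_im_le_norm z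
    rw [hzim, abs_of_pos (by positivity)] at this
    exact this
  set δ' : ℝ := Real.pi / 2 - |Complex.arg z| with hδ'
  have hδ'0 : 0 < δ' := lt_of_lt_of_le (by positivity) l2
  have hδ'2 : δ' ≤ 2 := by
    have : 0 ≤ |Complex.arg z| := abs_nonneg _
    have := Real.pi_le_four
    rw [hδ']; linarith
  obtain ⟨j1, j2⟩ := hC3 δ' hδ'0 hδ'2
  have hKe : (fun t => K t * Real.exp (-(δ' * t))) = fun t : ℝ =>
      ‖mellin (fun x : ℝ => f a θ (x : ℂ)) (1 + (t : ℂ) * I)‖ * Real.exp (|Complex.arg z| * t) := by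
    funext t
    simp only [hK]
    rw [mul_assoc, ← Real.exp_add]
    congr 2
    rw [hδ']; ring
  rw [hKe] at j1 j2
  have j3 := hinv z (by rw [hzre]; exact hδ0) j1
  have j4 : ‖f a θ z‖ ≤ |C3| * (4 * Real.pi * q / δ) ^ β / q := by
    have k1 : δ' ^ (-β) ≤ (4 * Real.pi * q / δ) ^ β := by
      rw [Real.rpow_neg hδ'0.le, ← Real.inv_rpow hδ'0.le]
      refine Real.rpow_le_rpow (by positivity) ?_ hβ0.le
      rw [← inv_div]
      exact inv_anti₀ (by positivity) l2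
    have k2 : (0 : ℝ) ≤ ∫ t in Ioi (0 : ℝ), ‖mellin (fun x : ℝ => f a θ (x : ℂ))
        (1 + (t : ℂ) * I)‖ * Real.exp (|Complex.arg z| * t) :=
      integral_nonneg fun t => by positivity
    have k3 : 1 / (Real.pi * ‖z‖) ≤ 1 / q := by
      refine one_div_le_one_div_of_le hq0 ?_
      have : (q : ℝ) ≤ ‖z‖ := by nlinarith
      nlinarith
    have hp : 0 ≤ δ' ^ (-β) := by positivity
    calc ‖f a θ z‖ ≤ _ := j3
      _ ≤ 1 / q * (|C3| * (4 * Real.pi * q / δ) ^ β) := by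
          refine mul_le_mul k3 (j2.trans ?_) k2 (by positivity)
          calc C3 * δ' ^ (-β) ≤ |C3| * δ' ^ (-β) := by gcongr; exact le_abs_self C3
            _ ≤ _ := by gcongr
      _ = _ := by ring
  have m1 : c / δ ^ 2 ≤ |C1| + |C3| * (4 * Real.pi * q / δ) ^ β / q := by
    have := le_abs_self C1
    linarith
  -- multiply by δ ^ β
  have hδβ : 0 < δ ^ β := by positivity
  have m2 : c * δ ^ (-(1 / 2 - ε)) ≤ |C1| * δ ^ β + |C3| * (4 * Real.pi) ^ β * q ^ (1 / 2 + ε) := by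
    have e1 : c / δ ^ 2 * δ ^ β = c * δ ^ (-(1 / 2 - ε)) := by
      have : δ ^ (-(1 / 2 - ε)) = δ ^ β / δ ^ 2 := by
        rw [← Real.rpow_natCast δ 2, ← Real.rpow_sub hδ0]
        congr 1
        rw [hβ]; push_cast; ring
      rw [this]; ring
    have e2 : |C3| * (4 * Real.pi * q / δ) ^ β / q * δ ^ β =
        |C3| * (4 * Real.pi) ^ β * q ^ (1 / 2 + ε) := by
      have e3 : (q : ℝ) ^ (1 / 2 + ε) = (q : ℝ) ^ β / q := by
        nth_rw 3 [← Real.rpow_one (q : ℝ)]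
        rw [← Real.rpow_sub hq0]
        congr 1
        rw [hβ]; ring
      rw [Real.div_rpow (by positivity) hδ0.le, Real.mul_rpow (by positivity) hq0.le, e3]
      field_simp
    rw [← e1, ← e2, ← add_mul]
    exact mul_le_mul_of_nonneg_right m1 hδβ.le
  have hqp1 : (1 : ℝ) ≤ (q : ℝ) ^ (1 / 2 + ε) := Real.one_le_rpow hq1 (by linarith)
  have hδβ1 : δ ^ β ≤ 1 := Real.rpow_le_one hδ0.le hδ1 hβ0.le
  have m3 : c * δ ^ (-(1 / 2 - ε)) ≤ (|C1| + |C3| * (4 * Real.pi) ^ β) * q ^ (1 / 2 + ε) := by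
    have : |C1| * δ ^ β ≤ |C1| * (q : ℝ) ^ (1 / 2 + ε) := by
      gcongr
      linarith
    linarith
  calc δ ^ (-(1 / 2 - ε)) = (c * δ ^ (-(1 / 2 - ε))) / c := by field_simp
    _ ≤ ((|C1| + |C3| * (4 * Real.pi) ^ β) * q ^ (1 / 2 + ε)) / c := by gcongr
    _ = _ := by ring

end Pool.Agent.Q149.BZ
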