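import Pool.Agent.Q155.BZ.Stm

/-! # Job BZ-6 of project BZ (helper155), by helper149 -/

set_option autoImplicit false

open Complex Set Filter Asymptotics MeasureTheory Topology

namespace Pool.Agent.Q149.BZ

open Pool.Agent.Q155.BZ

theorem ex (h0 : S_CONT) (h1 : S_SER) (h2 : S_NEAR) (h3 : S_FAR) : S_EX := by
  intro a θ ha hθ
  obtain ⟨ρ, hρ, -, G, hG, hGz⟩ := h2 a θ hθ
  obtain ⟨-, hcont, c, hc, -, -, hdec⟩ := h3 a θ ha hθ 1 (by simp)
  simp only [one_mul] at hcont hdec
  obtain ⟨Φ, hΦ, hΦm⟩ := h0 (fun x : ℝ => (x : ℂ) ^ 2 * h a θ (x : ℂ)) G c hc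
    ((by fun_prop : Continuous fun x : ℝ => (x : ℂ) ^ 2).continuousOn.mul hcont) hG
    (by
      have : ∀ᶠ x : ℝ in 𝓝[>] 0, x ∈ Ioc 0 ρ := Ioc_mem_nhdsGT hρ
      filter_upwards [this] with x hx
      refine (hGz (x : ℂ) (by simpa using hx.1) ?_).symm
      rw [Complex.norm_real, Real.norm_eq_abs, abs_of_pos hx.1]
      exact hx.2) hdec
  refine ⟨fun s => Φ (s - 2) / ((s - 1) * (s - 2)), fun s => Φ (s - 2), ⟨?_, ?_⟩,
    hΦ.comp (differentiable_id.sub_const 2), fun s => rfl⟩
  · intro s hs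
    have h1 : s - 1 ≠ 0 := sub_ne_zero.2 hs.1
    have h2 : s - 2 ≠ 0 := sub_ne_zero.2 hs.2
    refine DifferentiableAt.differentiableWithinAt ?_
    refine DifferentiableAt.div (hΦ.differentiableAt.comp s (by fun_prop)) (by fun_prop)
      (mul_ne_zero h1 h2)
  · intro s hs
    have hre : 0 < (s - 2).re := by simp; linarith
    have e1 := hΦm (s - 2) hre
    have e2 : mellin (fun x : ℝ => (x : ℂ) ^ 2 * h a θ (x : ℂ)) (s - 2) =
        mellin (fun x : ℝ => h a θ (x : ℂ)) s := by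
      have := mellin_cpow_smul (fun x : ℝ => h a θ (x : ℂ)) (s - 2) 2
      rw [sub_add_cancel] at this
      rw [← this]
      congr 1
      funext x
      rw [smul_eq_mul]
      norm_num
    have e3 := ((h1 a θ ha hθ s hs).2 1 (by simp)).2
    simp only [one_mul, one_cpow, mul_one] at e3
    rw [e2, e3] at e1
    have hs1 : s - 1 ≠ 0 := fun h => by
      have : (s - 1).re = 0 := by rw [h]; rfl
      simp at this; linarith
    have hs2 : s - 2 ≠ 0 := fun h => by
      rw [h] at hre; simp at hre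
    have e4 : Gamma s = (s - 1) * (s - 2) * Gamma (s - 2) := by
      have g1 := Gamma_add_one (s - 1) hs1
      have g2 := Gamma_add_one (s - 2) hs2
      rw [sub_add_cancel] at g1
      rw [show s - 2 + 1 = s - 1 by ring] at g2
      rw [g1, g2]; ring
    have e5 : Gamma (s - 2) ≠ 0 := Gamma_ne_zero_of_re_pos hre
    rw [e4] at e1
    rw [div_eq_iff (mul_ne_zero hs1 hs2)]
    have : Gamma (s - 2) * Φ (s - 2) = Gamma (s - 2) * (Z a θ s * ((s - 1) * (s - 2))) := by
      rw [e1]; ring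
    exact mul_left_cancel₀ e5 this

end Pool.Agent.Q149.BZ
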